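import Pool.Agent.Work.MP_dcf6a6_c1.Interface

/-!
# Block COPR: coprimality is preserved under smoothing of the node
-/

open Polynomial Topology Filter

namespace Pool.C1.helper37

theorem copr_eval (c : ℕ) {n : ℕ} (ε t : ℂ) (a : Fin (n + 1) → ℂ) :
    (lo c ε a).eval t = ∑ k : Fin (n + 1), a k * ε ^ ((k : ℕ) - c) * t ^ (k : ℕ) := by
  unfold lo
  rw [eval_finsetSum]
  refine Finset.sum_congr rfl fun k _ => ?_
  rw [eval_mul, eval_C, eval_pow, eval_X]

/-- the glued coefficients as a function on `ℕ` -/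
noncomputable def gln (c : ℕ) (f f' : ℂ[X]) (k : ℕ) : ℂ :=
  if k ≤ c then f.coeff k else f'.coeff (k - c)

theorem gl_eq (c c' : ℕ) (f f' : ℂ[X]) (k : Fin (c + c' + 1)) :
    gl c c' f f' k = gln c f f' k := rfl

theorem copr_sumA (c c' : ℕ) (f f' : ℂ[X]) (hf : f.natDegree = c) (t : ℂ) :
    ∑ k : Fin (c + c' + 1), gl c c' f f' k * (0 : ℂ) ^ ((k : ℕ) - c) * t ^ (k : ℕ) =
      f.eval t := by
  simp only [gl_eq]
  rw [← Finset.sum_range (fun k => gln c f f' k * (0 : ℂ) ^ (k - c) * t ^ k),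
    eval_eq_sum_range, hf]
  symm
  have h1 : ∑ k ∈ Finset.range (c + 1), f.coeff k * t ^ k =
      ∑ k ∈ Finset.range (c + 1), gln c f f' k * (0 : ℂ) ^ (k - c) * t ^ k := by
    refine Finset.sum_congr rfl fun k hk => ?_
    have hk' : k ≤ c := by
      have := Finset.mem_range.mp hk
      omega
    have e1 : k - c = 0 := by omega
    rw [gln, if_pos hk', e1, pow_zero, mul_one]
  rw [h1]
  refine Finset.sum_subset (Finset.range_mono (by omega)) fun k _ hk => ?_
  have hk' : ¬ k < c + 1 := by simpa using hk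
  have e1 : k - c ≠ 0 := by omega
  rw [zero_pow e1, mul_zero, zero_mul]

theorem copr_sumB (c c' : ℕ) (f f' : ℂ[X]) (hf' : f'.natDegree = c')
    (hff : f.coeff c = f'.coeff 0) (s : ℂ) :
    ∑ k : Fin (c + c' + 1), gl c c' f f' k * (0 : ℂ) ^ (c - (k : ℕ)) * s ^ ((k : ℕ) - c) =
      f'.eval s := by
  simp only [gl_eq]
  rw [← Finset.sum_range (fun k => gln c f f' k * (0 : ℂ) ^ (c - k) * s ^ (k - c)),
    eval_eq_sum_range, hf', add_assoc, Finset.sum_range_add]
  have h1 : ∑ k ∈ Finset.range c, gln c f f' k * (0 : ℂ) ^ (c - k) * s ^ (k - c) = 0 := by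
    refine Finset.sum_eq_zero fun k hk => ?_
    have := Finset.mem_range.mp hk
    have e1 : c - k ≠ 0 := by omega
    rw [zero_pow e1, mul_zero, zero_mul]
  rw [h1, zero_add]
  refine Finset.sum_congr rfl fun j _ => ?_
  have e1 : c - (c + j) = 0 := by omega
  have e2 : c + j - c = j := by omega
  rw [e1, e2, pow_zero, mul_one]
  congr 1
  unfold gln
  split_ifs with h
  · have : j = 0 := by omega
    rw [this, add_zero, hff]
  · rw [e2]

theorem copr_sumC (c c' : ℕ) (f f' : ℂ[X]) (hff : f.coeff c = f'.coeff 0) :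
    ∑ k : Fin (c + c' + 1), gl c c' f f' k * (0 : ℂ) ^ (c - (k : ℕ)) *
      (0 : ℂ) ^ (c + c' - max (k : ℕ) c) = f'.coeff c' := by
  simp only [gl_eq]
  rw [← Finset.sum_range (fun k => gln c f f' k * (0 : ℂ) ^ (c - k) *
    (0 : ℂ) ^ (c + c' - max k c))]
  rw [Finset.sum_eq_single (c + c')]
  · have e1 : c - (c + c') = 0 := by omega
    have e2 : c + c' - max (c + c') c = 0 := by omega
    rw [e1, e2, pow_zero, mul_one, mul_one]
    unfold gln
    split_ifs with h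
    · have : c' = 0 := by omega
      rw [this, add_zero, hff]
    · congr 1
      omega
  · intro k hk hkc
    have := Finset.mem_range.mp hk
    by_cases h : c - k = 0
    · have e2 : c + c' - max k c ≠ 0 := by omega
      rw [zero_pow e2, mul_zero]
    · rw [zero_pow h, mul_zero, zero_mul]
  · intro h
    exact absurd (Finset.mem_range.mpr (by omega)) h

variable {Y : Type*} {U : Filter Y} {c c' : ℕ} {f f' : ℂ[X]}
  {a : Y → Fin (c + c' + 1) → ℂ} {ε T : Y → ℂ}

theorem copr_limA [U.NeBot] (ha : Tendsto a U (𝓝 (gl c c' f f'))) (hε : Tendsto ε U (𝓝 0))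
    (hf : f.natDegree = c) {t : ℂ} (hT : Tendsto T U (𝓝 t))
    (h0 : ∀ᶠ x in U, (lo c (ε x) (a x)).eval (T x) = 0) : f.eval t = 0 := by
  have h1 : Tendsto (fun x => (lo c (ε x) (a x)).eval (T x)) U (𝓝 (f.eval t)) := by
    rw [← copr_sumA c c' f f' hf t]
    simp only [copr_eval]
    refine tendsto_finsetSum _ fun k _ => ?_
    exact ((tendsto_pi_nhds.mp ha k).mul (hε.pow _)).mul (hT.pow _)
  have h2 : Tendsto (fun x => (lo c (ε x) (a x)).eval (T x)) U (𝓝 0) :=
    tendsto_const_nhds.congr' (h0.mono fun x hx => hx.symm)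
  exact tendsto_nhds_unique h1 h2

theorem copr_limB [U.NeBot] (ha : Tendsto a U (𝓝 (gl c c' f f')))
    (hf' : f'.natDegree = c') (hff : f.coeff c = f'.coeff 0)
    (hT : Tendsto (fun x => (T x)⁻¹) U (𝓝 0)) {s : ℂ}
    (hS : Tendsto (fun x => ε x * T x) U (𝓝 s))
    (hT0 : ∀ᶠ x in U, T x ≠ 0)
    (h0 : ∀ᶠ x in U, (lo c (ε x) (a x)).eval (T x) = 0) : f'.eval s = 0 := by
  have h1 : Tendsto (fun x => ∑ k : Fin (c + c' + 1), a x k * ((T x)⁻¹) ^ (c - (k : ℕ)) *
      (ε x * T x) ^ ((k : ℕ) - c)) U (𝓝 (f'.eval s)) := by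
    rw [← copr_sumB c c' f f' hf' hff s]
    refine tendsto_finsetSum _ fun k _ => ?_
    exact ((tendsto_pi_nhds.mp ha k).mul (hT.pow _)).mul (hS.pow _)
  have h2 : Tendsto (fun x => ∑ k : Fin (c + c' + 1), a x k * ((T x)⁻¹) ^ (c - (k : ℕ)) *
      (ε x * T x) ^ ((k : ℕ) - c)) U (𝓝 0) := by
    refine tendsto_const_nhds.congr' ((h0.and hT0).mono ?_)
    rintro x ⟨hx, ht⟩
    rw [copr_eval] at hx
    have ht' : T x ^ c ≠ 0 := pow_ne_zero _ ht
    have h3 : T x ^ c * ∑ k : Fin (c + c' + 1), a x k * ((T x)⁻¹) ^ (c - (k : ℕ)) *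
        (ε x * T x) ^ ((k : ℕ) - c) = 0 := by
      rw [← hx, Finset.mul_sum]
      refine Finset.sum_congr rfl fun k _ => ?_
      rcases le_total (k : ℕ) c with hk | hk
      · have e1 : (k : ℕ) - c = 0 := by omega
        have e2 : T x ^ c = T x ^ (k : ℕ) * T x ^ (c - (k : ℕ)) := by
          rw [← pow_add]
          congr 1
          omega
        rw [e1, pow_zero, pow_zero, mul_one, mul_one, e2, inv_pow]
        field_simp
      · have e1 : c - (k : ℕ) = 0 := by omega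
        have e2 : T x ^ (k : ℕ) = T x ^ c * T x ^ ((k : ℕ) - c) := by
          rw [← pow_add]
          congr 1
          omega
        rw [e1, pow_zero, mul_one, e2, mul_pow]
        ring
    rcases mul_eq_zero.mp h3 with h | h
    · exact absurd h ht'
    · exact h.symm
  exact tendsto_nhds_unique h1 h2

theorem copr_limC [U.NeBot] (ha : Tendsto a U (𝓝 (gl c c' f f')))
    (hff : f.coeff c = f'.coeff 0)
    (hT : Tendsto (fun x => (T x)⁻¹) U (𝓝 0))
    (hS : Tendsto (fun x => (ε x * T x)⁻¹) U (𝓝 0))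
    (hT0 : ∀ᶠ x in U, T x ≠ 0) (hε0 : ∀ᶠ x in U, ε x ≠ 0)
    (h0 : ∀ᶠ x in U, (lo c (ε x) (a x)).eval (T x) = 0) : f'.coeff c' = 0 := by
  have h1 : Tendsto (fun x => ∑ k : Fin (c + c' + 1), a x k * ((T x)⁻¹) ^ (c - (k : ℕ)) *
      ((ε x * T x)⁻¹) ^ (c + c' - max (k : ℕ) c)) U (𝓝 (f'.coeff c')) := by
    rw [← copr_sumC c c' f f' hff]
    refine tendsto_finsetSum _ fun k _ => ?_
    exact ((tendsto_pi_nhds.mp ha k).mul (hT.pow _)).mul (hS.pow _)
  have h2 : Tendsto (fun x => ∑ k : Fin (c + c' + 1), a x k * ((T x)⁻¹) ^ (c - (k : ℕ)) *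
      ((ε x * T x)⁻¹) ^ (c + c' - max (k : ℕ) c)) U (𝓝 0) := by
    refine tendsto_const_nhds.congr' ((h0.and (hT0.and hε0)).mono ?_)
    rintro x ⟨hx, ht, he⟩
    rw [copr_eval] at hx
    have hs : ε x * T x ≠ 0 := mul_ne_zero he ht
    have ht' : T x ^ c * (ε x * T x) ^ c' ≠ 0 := mul_ne_zero (pow_ne_zero _ ht) (pow_ne_zero _ hs)
    have h3 : (T x ^ c * (ε x * T x) ^ c') * ∑ k : Fin (c + c' + 1),
        a x k * ((T x)⁻¹) ^ (c - (k : ℕ)) *
        ((ε x * T x)⁻¹) ^ (c + c' - max (k : ℕ) c) = 0 := by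
      rw [← hx, Finset.mul_sum]
      refine Finset.sum_congr rfl fun k _ => ?_
      have hk2 := k.2
      rcases le_total (k : ℕ) c with hk | hk
      · have e1 : (k : ℕ) - c = 0 := by omega
        have e2 : T x ^ c = T x ^ (k : ℕ) * T x ^ (c - (k : ℕ)) := by
          rw [← pow_add]
          congr 1
          omega
        have e3 : c + c' - max (k : ℕ) c = c' := by omega
        have h4 : (ε x * T x) ^ c' * ((ε x * T x) ^ c')⁻¹ = 1 :=
          mul_inv_cancel₀ (pow_ne_zero _ hs)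
        have h5 : T x ^ (c - (k : ℕ)) * (T x ^ (c - (k : ℕ)))⁻¹ = 1 :=
          mul_inv_cancel₀ (pow_ne_zero _ ht)
        rw [e1, e3, pow_zero, mul_one, e2, inv_pow, inv_pow]
        calc T x ^ (k : ℕ) * T x ^ (c - (k : ℕ)) * (ε x * T x) ^ c' *
              (a x k * (T x ^ (c - (k : ℕ)))⁻¹ * ((ε x * T x) ^ c')⁻¹)
            = a x k * T x ^ (k : ℕ) * (T x ^ (c - (k : ℕ)) * (T x ^ (c - (k : ℕ)))⁻¹) *
              ((ε x * T x) ^ c' * ((ε x * T x) ^ c')⁻¹) := by ring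
          _ = a x k * T x ^ (k : ℕ) := by rw [h4, h5]; ring
      · have e1 : c - (k : ℕ) = 0 := by omega
        have e2 : T x ^ (k : ℕ) = T x ^ c * T x ^ ((k : ℕ) - c) := by
          rw [← pow_add]
          congr 1
          omega
        have e3 : (ε x * T x) ^ c' = (ε x * T x) ^ ((k : ℕ) - c) *
            (ε x * T x) ^ (c + c' - max (k : ℕ) c) := by
          rw [← pow_add]
          congr 1
          omega
        have h4 : (ε x * T x) ^ (c + c' - max (k : ℕ) c) *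
            ((ε x * T x) ^ (c + c' - max (k : ℕ) c))⁻¹ = 1 :=
          mul_inv_cancel₀ (pow_ne_zero _ hs)
        rw [e1, pow_zero, mul_one, e2, e3, inv_pow]
        calc T x ^ c * ((ε x * T x) ^ ((k : ℕ) - c) *
              (ε x * T x) ^ (c + c' - max (k : ℕ) c)) *
              (a x k * ((ε x * T x) ^ (c + c' - max (k : ℕ) c))⁻¹)
            = T x ^ c * ((ε x * T x) ^ ((k : ℕ) - c)) * a x k *
              ((ε x * T x) ^ (c + c' - max (k : ℕ) c) *
              ((ε x * T x) ^ (c + c' - max (k : ℕ) c))⁻¹) := by ring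
          _ = a x k * ε x ^ ((k : ℕ) - c) * (T x ^ c * T x ^ ((k : ℕ) - c)) := by
              rw [h4, mul_pow]; ring
    rcases mul_eq_zero.mp h3 with h | h
    · exact absurd h ht'
    · exact h.symm
  exact tendsto_nhds_unique h1 h2

/-- a function to `ℂ` converges along an ultrafilter, or its inverse converges to zero -/
theorem copr_dich {Y : Type*} (U : Ultrafilter Y) (T : Y → ℂ) :
    (∃ t, Tendsto T U (𝓝 t)) ∨
      (Tendsto (fun x => (T x)⁻¹) U (𝓝 0) ∧ ∀ᶠ x in (U : Filter Y), T x ≠ 0) := by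
  by_cases h : ∃ R : ℝ, ∀ᶠ x in (U : Filter Y), ‖T x‖ ≤ R
  · left
    obtain ⟨R, hR⟩ := h
    have hc : IsCompact (Metric.closedBall (0 : ℂ) R) := isCompact_closedBall 0 R
    obtain ⟨t, _, ht⟩ := hc.ultrafilter_le_nhds (U.map T) (by
      rw [Ultrafilter.coe_map, le_principal_iff, mem_map]
      refine hR.mono fun x hx => ?_
      simpa using hx)
    exact ⟨t, ht⟩
  · right
    push Not at h
    have h1 : ∀ R : ℝ, ∀ᶠ x in (U : Filter Y), R < ‖T x‖ := by
      intro R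
      exact h R
    refine ⟨?_, (h1 0).mono fun x hx => norm_pos_iff.mp hx⟩
    have h2 : Tendsto (fun x => ‖T x‖) U atTop :=
      tendsto_atTop.mpr fun R => (h1 R).mono fun x hx => hx.le
    have h3 : Tendsto (fun x => ‖T x‖⁻¹) U (𝓝 0) := h2.inv_tendsto_atTop
    rw [tendsto_zero_iff_norm_tendsto_zero]
    refine h3.congr fun x => ?_
    rw [norm_inv]

theorem cop_root (p q : ℂ[X]) (h : ¬ IsCoprime p q) : ∃ t, p.eval t = 0 ∧ q.eval t = 0 := by
  rw [Polynomial.isCoprime_iff_aeval_ne_zero_of_isAlgClosed ℂ ℂ] at h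
  push Not at h
  obtain ⟨t, h1, h2⟩ := h
  exact ⟨t, by simpa using h1, by simpa using h2⟩

theorem cop_not_root {p q : ℂ[X]} (h : IsCoprime p q) {t : ℂ} (h1 : p.eval t = 0)
    (h2 : q.eval t = 0) : False := by
  obtain ⟨a, b, hab⟩ := h
  have := congrArg (fun r => Polynomial.eval t r) hab
  simp [h1, h2] at this

theorem stmt_COPR : Stmt_COPR := by
  intro c c' m m' f f' g g' hf hf' hg hg' hf0 hg0 hff hgg hcop hcop'
  by_contra hev
  rw [not_eventually] at hev
  set F : Filter (((Fin (c + c' + 1) → ℂ) × (Fin (m + m' + 1) → ℂ)) × ℂ) :=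
    𝓝 ((gl c c' f f', gl m m' g g'), 0) with hF
  set Bd : Set (((Fin (c + c' + 1) → ℂ) × (Fin (m + m' + 1) → ℂ)) × ℂ) :=
    {x | ¬ (x.2 ≠ 0 → IsCoprime (lo c x.2 x.1.1) (lo m x.2 x.1.2))} with hBd
  have hne : (F ⊓ 𝓟 Bd).NeBot := frequently_mem_iff_neBot.mp hev
  have hex : ∀ x ∈ Bd, ∃ t, x.2 ≠ 0 ∧ (lo c x.2 x.1.1).eval t = 0 ∧
      (lo m x.2 x.1.2).eval t = 0 := by
    intro x hx
    rw [hBd, Set.mem_ofPred_eq, Classical.not_imp] at hx
    obtain ⟨t, h1, h2⟩ := cop_root _ _ hx.2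
    exact ⟨t, hx.1, h1, h2⟩
  choose! T hT using hex
  set U := Ultrafilter.of (F ⊓ 𝓟 Bd) with hU
  have hUle : (U : Filter _) ≤ F ⊓ 𝓟 Bd := Ultrafilter.of_le _
  have hUF : Tendsto id (U : Filter _) F := tendsto_id'.mpr (hUle.trans inf_le_left)
  have hUB : ∀ᶠ x in (U : Filter _), x ∈ Bd := (hUle.trans inf_le_right) (mem_principal_self Bd)
  have ha : Tendsto (fun x : ((Fin (c + c' + 1) → ℂ) × (Fin (m + m' + 1) → ℂ)) × ℂ => x.1.1)
      (U : Filter _) (𝓝 (gl c c' f f')) :=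
    (continuous_fst.comp continuous_fst).continuousAt.tendsto.comp hUF
  have hb : Tendsto (fun x : ((Fin (c + c' + 1) → ℂ) × (Fin (m + m' + 1) → ℂ)) × ℂ => x.1.2)
      (U : Filter _) (𝓝 (gl m m' g g')) :=
    (continuous_snd.comp continuous_fst).continuousAt.tendsto.comp hUF
  have hε : Tendsto (fun x : ((Fin (c + c' + 1) → ℂ) × (Fin (m + m' + 1) → ℂ)) × ℂ => x.2)
      (U : Filter _) (𝓝 0) :=
    continuous_snd.continuousAt.tendsto.comp hUF
  have h0f : ∀ᶠ x in (U : Filter _), (lo c x.2 x.1.1).eval (T x) = 0 :=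
    hUB.mono fun x hx => (hT x hx).2.1
  have h0g : ∀ᶠ x in (U : Filter _), (lo m x.2 x.1.2).eval (T x) = 0 :=
    hUB.mono fun x hx => (hT x hx).2.2
  have hε0 : ∀ᶠ x in (U : Filter (((Fin (c + c' + 1) → ℂ) × (Fin (m + m' + 1) → ℂ)) × ℂ)),
      x.2 ≠ 0 := hUB.mono fun x hx => (hT x hx).1
  rcases copr_dich U T with ⟨t, ht⟩ | ⟨hTi, hT0⟩
  · exact cop_not_root hcop (copr_limA ha hε hf ht h0f) (copr_limA hb hε hg ht h0g)
  · rcases copr_dich U (fun x : ((Fin (c + c' + 1) → ℂ) × (Fin (m + m' + 1) → ℂ)) × ℂ =>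
      x.2 * T x) with ⟨s, hs⟩ | ⟨hSi, _⟩
    · exact cop_not_root hcop' (copr_limB ha hf' hff hTi hs hT0 h0f)
        (copr_limB hb hg' hgg hTi hs hT0 h0g)
    · have h1 := copr_limC ha hff hTi hSi hT0 hε0 h0f
      have h2 : f' = 0 := by
        rw [← hf'] at h1
        exact leadingCoeff_eq_zero.mp h1
      rw [h2, coeff_zero] at hf0
      exact hf0 rfl

end Pool.C1.helper37
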