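import Pool.Agent.Work.MP_dcf6a6_c1.Interface

/-!
# Common lemmas for the Klein forms
-/

open Polynomial

namespace Pool.C1.helper37

/-- `2 X` and `X + 1` are coprime. -/
theorem cop_xy : IsCoprime (C 2 * X : ℂ[X]) (X + C 1) := by
  refine ⟨-C (1 / 2 : ℂ), 1, ?_⟩
  have h : C (1 / 2 : ℂ) * C (2 : ℂ) = 1 := by
    rw [← C_mul, ← C_1]
    congr 1
    norm_num
  have h2 : -C (1 / 2 : ℂ) * (C 2 * X) + 1 * (X + C 1) =
      -(C (1 / 2 : ℂ) * C 2) * X + (X + C 1) := by ring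
  rw [h2, h, C_1]
  ring

/-- the general construction -/
theorem kl_of (a : Fin 3 → ℕ) (d : ℕ) (c : Fin 3 → ℕ) (e : Fin 3 → ℂ) (A : Fin 3 → ℂ[X])
    (hc : ∀ i, 0 < c i) (ha : ∀ i, a i * c i = d) (hs : ∑ i, c i = d + 2) (he : ∀ i, e i ≠ 0)
    (ha0 : ∀ i, 0 < a i)
    (hA : ∀ i, (A i).natDegree = c i) (h12 : IsCoprime (A 1) (A 2))
    (hrel : ∑ i, C (e i) * A i ^ a i = 0) : Kl a := by
  have hne : ∀ i, A i ≠ 0 := by
    intro i h
    have := hA i
    rw [h, natDegree_zero] at this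
    have := hc i
    omega
  have hrel' : C (e 0) * A 0 ^ a 0 = -(C (e 1) * A 1 ^ a 1 + C (e 2) * A 2 ^ a 2) := by
    rw [Fin.sum_univ_three] at hrel
    linear_combination hrel
  have hu : ∀ i, IsUnit (C (e i) : ℂ[X]) := fun i => isUnit_C.mpr (he i).isUnit
  have hpow : ∀ (p q : ℂ[X]) (n : ℕ) (i : Fin 3), 0 < n → IsCoprime p (C (e i) * q ^ n) →
      IsCoprime p q := by
    intro p q n i hn h
    have h1 : IsCoprime p (q ^ n) := h.of_mul_right_right
    exact (IsCoprime.pow_right_iff hn).mp h1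
  have h10 : IsCoprime (A 1) (A 0) := by
    apply hpow _ _ (a 0) 0 (ha0 0)
    rw [hrel', IsCoprime.neg_right_iff]
    have h1 : IsCoprime (A 1) (C (e 2) * A 2 ^ a 2) :=
      IsCoprime.mul_right (isCoprime_one_right.of_isCoprime_of_dvd_right (hu 2).dvd)
        h12.pow_right
    obtain ⟨n, hn⟩ : ∃ n, a 1 = n + 1 := ⟨a 1 - 1, by have := ha0 1; omega⟩
    have : C (e 1) * A 1 ^ a 1 + C (e 2) * A 2 ^ a 2 =
        C (e 2) * A 2 ^ a 2 + A 1 * (C (e 1) * A 1 ^ n) := by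
      rw [hn]; ring
    rw [this]
    exact IsCoprime.add_mul_left_right h1 _
  have h20 : IsCoprime (A 2) (A 0) := by
    apply hpow _ _ (a 0) 0 (ha0 0)
    rw [hrel', IsCoprime.neg_right_iff]
    have h1 : IsCoprime (A 2) (C (e 1) * A 1 ^ a 1) :=
      IsCoprime.mul_right (isCoprime_one_right.of_isCoprime_of_dvd_right (hu 1).dvd)
        h12.symm.pow_right
    obtain ⟨n, hn⟩ : ∃ n, a 2 = n + 1 := ⟨a 2 - 1, by have := ha0 2; omega⟩
    have : C (e 1) * A 1 ^ a 1 + C (e 2) * A 2 ^ a 2 =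
        C (e 1) * A 1 ^ a 1 + A 2 * (C (e 2) * A 2 ^ n) := by
      rw [hn]; ring
    rw [this]
    exact IsCoprime.add_mul_left_right h1 _
  refine ⟨d, c, e, A, hc, ha, hs, he, fun i => ⟨hne i, hA i⟩, ?_, hrel⟩
  intro i j hij
  fin_cases i <;> fin_cases j
  · exact absurd rfl hij
  · exact h10.symm
  · exact h20.symm
  · exact h10
  · exact absurd rfl hij
  · exact h12
  · exact h20
  · exact h12.symm
  · exact absurd rfl hij

end Pool.C1.helper37
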