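import Pool.Agent.Work.MP_dcf6a6_c1_helper37.KCOM

open Polynomial

namespace Pool.C1.helper37

/-- the forms -/
noncomputable def dihA (n : ℕ) (i : Fin 3) : ℂ[X] :=
  ![(C 2 * X) ^ n + (X + C 1) ^ n, (C 2 * X) ^ n - (X + C 1) ^ n, (C 2 * X) * (X + C 1)] i

theorem kdih_deg (n : ℕ) (hn : 2 ≤ n) (s : ℂ) (hs : s = 1 ∨ s = -1) :
    ((C 2 * X) ^ n + C s * (X + C 1) ^ n : ℂ[X]).natDegree = n := by
  have h1 : ((C 2 * X) ^ n + C s * (X + C 1) ^ n : ℂ[X]).natDegree ≤ n := by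
    compute_degree
  have h2 : ((C 2 * X) ^ n + C s * (X + C 1) ^ n : ℂ[X]).coeff n = 2 ^ n + s := by
    rw [coeff_add, coeff_C_mul, mul_pow, ← C_pow, coeff_C_mul, coeff_X_pow_self, coeff_X_add_C_pow]
    simp
  have h3 : (2 : ℂ) ^ n + s ≠ 0 := by
    have h4 : (4 : ℝ) ≤ 2 ^ n := by
      calc (4 : ℝ) = 2 ^ 2 := by norm_num
        _ ≤ 2 ^ n := pow_le_pow_right₀ (by norm_num) hn
    intro h
    have h5 : (2 : ℂ) ^ n = -s := by linear_combination h
    have h6 : ‖(2 : ℂ) ^ n‖ = ‖-s‖ := by rw [h5]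
    rw [norm_pow, norm_neg] at h6
    have h7 : ‖s‖ = 1 := by
      rcases hs with rfl | rfl <;> simp
    have h8 : ‖(2 : ℂ)‖ = 2 := by simp
    rw [h7, h8] at h6
    linarith
  exact le_antisymm h1 (le_natDegree_of_ne_zero (by rw [h2]; exact h3))

theorem stmt_KDIH : Stmt_KDIH := by
  intro n hn
  refine kl_of ![2, 2, n] (2 * n) ![n, n, 2] ![1, -1, -4] (dihA n) ?_ ?_ ?_ ?_ ?_ ?_ ?_ ?_
  · intro i
    fin_cases i
    · show 0 < n
      omega
    · show 0 < n
      omega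
    · show 0 < 2
      omega
  · intro i
    fin_cases i
    · show 2 * n = 2 * n
      rfl
    · show 2 * n = 2 * n
      rfl
    · show n * 2 = 2 * n
      ring
  · rw [Fin.sum_univ_three]
    show n + n + 2 = 2 * n + 2
    ring
  · intro i; fin_cases i <;> norm_num
  · intro i
    fin_cases i
    · show 0 < 2
      omega
    · show 0 < 2
      omega
    · show 0 < n
      omega
  · intro i
    fin_cases i
    · show (dihA n 0).natDegree = n
      have := kdih_deg n hn 1 (Or.inl rfl)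
      rw [C_1, one_mul] at this
      exact this
    · show (dihA n 1).natDegree = n
      have := kdih_deg n hn (-1) (Or.inr rfl)
      rw [map_neg, C_1, neg_mul, one_mul, ← sub_eq_add_neg] at this
      exact this
    · show (dihA n 2).natDegree = 2
      unfold dihA
      simp only [Matrix.cons_val]
      compute_degree!
  · show IsCoprime ((C 2 * X) ^ n - (X + C 1) ^ n : ℂ[X]) ((C 2 * X) * (X + C 1))
    obtain ⟨m, rfl⟩ : ∃ m, n = m + 1 := ⟨n - 1, by omega⟩
    refine IsCoprime.mul_right ?_ ?_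
    · have : ((C 2 * X) ^ (m + 1) - (X + C 1) ^ (m + 1) : ℂ[X]) =
          -(X + C 1) ^ (m + 1) + (C 2 * X) * (C 2 * X) ^ m := by ring
      rw [this]
      exact IsCoprime.add_mul_left_left (cop_xy.symm.pow_left.neg_left) _
    · have : ((C 2 * X) ^ (m + 1) - (X + C 1) ^ (m + 1) : ℂ[X]) =
          (C 2 * X) ^ (m + 1) + (X + C 1) * (-(X + C 1) ^ m) := by ring
      rw [this]
      exact IsCoprime.add_mul_left_left cop_xy.pow_left _
  · rw [Fin.sum_univ_three]
    show C (1 : ℂ) * ((C 2 * X) ^ n + (X + C 1) ^ n) ^ 2 +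
      C (-1 : ℂ) * ((C 2 * X) ^ n - (X + C 1) ^ n) ^ 2 + C (-4 : ℂ) * ((C 2 * X) * (X + C 1)) ^ n = 0
    rw [mul_pow (C 2 * X : ℂ[X])]
    generalize (C 2 * X : ℂ[X]) ^ n = z
    generalize (X + C 1 : ℂ[X]) ^ n = w
    rw [map_neg, map_neg, C_1, map_ofNat C 4]
    ring

end Pool.C1.helper37
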