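import Pool.Agent.Work.MP_dcf6a6_c1_helper37.KCOM

open Polynomial

namespace Pool.C1.helper37

theorem kico_cop (z w : ℂ[X]) (h : IsCoprime z w) :
    IsCoprime (-(z ^ 4 + w ^ 4) + C 228 * (z ^ 3 * w - z * w ^ 3) - C 494 * (z ^ 2 * w ^ 2))
      (z * (w * (z ^ 2 + C 11 * (z * w) - w ^ 2))) := by
  have hz : IsCoprime (-(z ^ 4 + w ^ 4) + C 228 * (z ^ 3 * w - z * w ^ 3) -
      C 494 * (z ^ 2 * w ^ 2)) z := by
    have : -(z ^ 4 + w ^ 4) + C 228 * (z ^ 3 * w - z * w ^ 3) - C 494 * (z ^ 2 * w ^ 2) =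
        -w ^ 4 + z * (-z ^ 3 + C 228 * (z ^ 2 * w - w ^ 3) - C 494 * (z * w ^ 2)) := by ring
    rw [this]
    exact IsCoprime.add_mul_left_left (h.symm.pow_left.neg_left) _
  have hw : IsCoprime (-(z ^ 4 + w ^ 4) + C 228 * (z ^ 3 * w - z * w ^ 3) -
      C 494 * (z ^ 2 * w ^ 2)) w := by
    have : -(z ^ 4 + w ^ 4) + C 228 * (z ^ 3 * w - z * w ^ 3) - C 494 * (z ^ 2 * w ^ 2) =
        -z ^ 4 + w * (-w ^ 3 + C 228 * (z ^ 3 - z * w ^ 2) - C 494 * (z ^ 2 * w)) := by ring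
    rw [this]
    exact IsCoprime.add_mul_left_left (h.pow_left.neg_left) _
  have hQz : IsCoprime z (z ^ 2 + C 11 * (z * w) - w ^ 2) := by
    have : z ^ 2 + C 11 * (z * w) - w ^ 2 = -w ^ 2 + z * (z + C 11 * w) := by ring
    rw [this]
    exact IsCoprime.add_mul_left_right (h.pow_right.neg_right) _
  have hQw : IsCoprime w (z ^ 2 + C 11 * (z * w) - w ^ 2) := by
    have : z ^ 2 + C 11 * (z * w) - w ^ 2 = z ^ 2 + w * (C 11 * z - w) := by ring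
    rw [this]
    exact IsCoprime.add_mul_left_right h.symm.pow_right _
  have hQ : IsCoprime (-(z ^ 4 + w ^ 4) + C 228 * (z ^ 3 * w - z * w ^ 3) -
      C 494 * (z ^ 2 * w ^ 2)) (z ^ 2 + C 11 * (z * w) - w ^ 2) := by
    have : -(z ^ 4 + w ^ 4) + C 228 * (z ^ 3 * w - z * w ^ 3) - C 494 * (z ^ 2 * w ^ 2) =
        C (-3125) * (z ^ 2 * w ^ 2) +
          (z ^ 2 + C 11 * (z * w) - w ^ 2) * (-z ^ 2 + C 239 * (z * w) + w ^ 2) := by
      simp only [map_neg]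
      have e1 : (C 228 : ℂ[X]) = 228 := map_ofNat C 228
      have e2 : (C 494 : ℂ[X]) = 494 := map_ofNat C 494
      have e3 : (C 3125 : ℂ[X]) = 3125 := map_ofNat C 3125
      have e4 : (C 11 : ℂ[X]) = 11 := map_ofNat C 11
      have e5 : (C 239 : ℂ[X]) = 239 := map_ofNat C 239
      rw [e1, e2, e3, e4, e5]
      ring
    rw [this]
    refine IsCoprime.add_mul_left_left (IsCoprime.mul_left ?_ (IsCoprime.mul_left ?_ ?_)) _
    · exact isCoprime_one_left.of_isCoprime_of_dvd_left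
        (isUnit_C.mpr (by norm_num : (-3125 : ℂ) ≠ 0).isUnit).dvd
    · exact hQz.pow_left
    · exact hQw.pow_left
  exact hz.mul_right (hw.mul_right hQ)

/-- the forms -/
noncomputable def icoA (i : Fin 3) : ℂ[X] :=
  ![(C 2 * X) ^ 30 + (X + C 1) ^ 30 +
      C 522 * ((C 2 * X) ^ 25 * (X + C 1) ^ 5 - (C 2 * X) ^ 5 * (X + C 1) ^ 25) -
      C 10005 * ((C 2 * X) ^ 20 * (X + C 1) ^ 10 + (C 2 * X) ^ 10 * (X + C 1) ^ 20),
    -((C 2 * X) ^ 20 + (X + C 1) ^ 20) +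
      C 228 * ((C 2 * X) ^ 15 * (X + C 1) ^ 5 - (C 2 * X) ^ 5 * (X + C 1) ^ 15) -
      C 494 * ((C 2 * X) ^ 10 * (X + C 1) ^ 10),
    (C 2 * X) * (X + C 1) *
      ((C 2 * X) ^ 10 + C 11 * ((C 2 * X) ^ 5 * (X + C 1) ^ 5) - (X + C 1) ^ 10)] i

theorem ico_rel (x y : ℂ[X]) :
    (x ^ 30 + y ^ 30 + C 522 * (x ^ 25 * y ^ 5 - x ^ 5 * y ^ 25) -
      C 10005 * (x ^ 20 * y ^ 10 + x ^ 10 * y ^ 20)) ^ 2 +
    (-(x ^ 20 + y ^ 20) + C 228 * (x ^ 15 * y ^ 5 - x ^ 5 * y ^ 15) -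
      C 494 * (x ^ 10 * y ^ 10)) ^ 3 -
    C 1728 * (x * y * (x ^ 10 + C 11 * (x ^ 5 * y ^ 5) - y ^ 10)) ^ 5 = 0 := by
  have e1 : (C 522 : ℂ[X]) = 522 := map_ofNat C 522
  have e2 : (C 10005 : ℂ[X]) = 10005 := map_ofNat C 10005
  have e3 : (C 228 : ℂ[X]) = 228 := map_ofNat C 228
  have e4 : (C 494 : ℂ[X]) = 494 := map_ofNat C 494
  have e5 : (C 1728 : ℂ[X]) = 1728 := map_ofNat C 1728
  have e6 : (C 11 : ℂ[X]) = 11 := map_ofNat C 11
  rw [e1, e2, e3, e4, e5, e6]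
  ring

theorem stmt_KICO : Stmt_KICO := by
  refine kl_of ![2, 3, 5] 60 ![30, 20, 12] ![1, 1, -1728] icoA ?_ ?_ ?_ ?_ ?_ ?_ ?_ ?_
  · intro i; fin_cases i <;> norm_num
  · intro i; fin_cases i <;> norm_num
  · rw [Fin.sum_univ_three]; rfl
  · intro i; fin_cases i <;> norm_num
  · intro i; fin_cases i <;> norm_num
  · intro i
    fin_cases i
    · show (icoA 0).natDegree = 30
      unfold icoA
      simp only [Matrix.cons_val_zero]
      compute_degree!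
    · show (icoA 1).natDegree = 20
      have e1 : icoA 1 = -((C 2 * X) ^ 20 + (X + C 1) ^ 20 -
          C 228 * ((C 2 * X) ^ 15 * (X + C 1) ^ 5 - (C 2 * X) ^ 5 * (X + C 1) ^ 15) +
          C 494 * ((C 2 * X) ^ 10 * (X + C 1) ^ 10)) := by
        show -((C 2 * X) ^ 20 + (X + C 1) ^ 20) +
          C 228 * ((C 2 * X) ^ 15 * (X + C 1) ^ 5 - (C 2 * X) ^ 5 * (X + C 1) ^ 15) -
          C 494 * ((C 2 * X) ^ 10 * (X + C 1) ^ 10) = _
        abel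
      rw [e1, natDegree_neg]
      compute_degree!
    · show (icoA 2).natDegree = 12
      unfold icoA
      simp only [Matrix.cons_val]
      compute_degree!
  · have h1 : IsCoprime ((C 2 * X : ℂ[X]) ^ 5) ((X + C 1) ^ 5) := cop_xy.pow
    have h2 := kico_cop _ _ h1
    have e1 : icoA 1 = -(((C 2 * X) ^ 5) ^ 4 + ((X + C 1) ^ 5) ^ 4) +
        C 228 * (((C 2 * X) ^ 5) ^ 3 * (X + C 1) ^ 5 - (C 2 * X) ^ 5 * ((X + C 1) ^ 5) ^ 3) -
        C 494 * (((C 2 * X) ^ 5) ^ 2 * ((X + C 1) ^ 5) ^ 2) := by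
      simp only [icoA, Matrix.cons_val_one, ← pow_mul]
      norm_num
    have e2 : icoA 2 = (C 2 * X) * ((X + C 1) *
        (((C 2 * X) ^ 5) ^ 2 + C 11 * ((C 2 * X) ^ 5 * (X + C 1) ^ 5) -
          ((X + C 1) ^ 5) ^ 2)) := by
      simp only [icoA, Matrix.cons_val, ← pow_mul, mul_assoc]
    rw [← e1] at h2
    refine h2.of_isCoprime_of_dvd_right ?_
    rw [e2]
    exact mul_dvd_mul (dvd_pow_self _ (by norm_num))
      (mul_dvd_mul (dvd_pow_self _ (by norm_num)) dvd_rfl)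
  · rw [Fin.sum_univ_three]
    have := ico_rel (C 2 * X) (X + C 1)
    show C (1 : ℂ) * icoA 0 ^ 2 + C (1 : ℂ) * icoA 1 ^ 3 + C (-1728 : ℂ) * icoA 2 ^ 5 = 0
    rw [C_1, one_mul, one_mul, map_neg, neg_mul, ← sub_eq_add_neg]
    exact this

end Pool.C1.helper37
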