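import Pool.Agent.Work.MP_dcf6a6_c1_helper37.KCOM

open Polynomial

namespace Pool.C1.helper37

theorem koct_cop (z w : ℂ[X]) (h : IsCoprime z w) :
    IsCoprime (z ^ 2 + C 14 * (z * w) + w ^ 2) (z * (w * (z - w))) := by
  have hz : IsCoprime (z ^ 2 + C 14 * (z * w) + w ^ 2) z := by
    have : z ^ 2 + C 14 * (z * w) + w ^ 2 = w ^ 2 + z * (z + C 14 * w) := by ring
    rw [this]
    exact IsCoprime.add_mul_left_left h.symm.pow_left _
  have hw : IsCoprime (z ^ 2 + C 14 * (z * w) + w ^ 2) w := by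
    have : z ^ 2 + C 14 * (z * w) + w ^ 2 = z ^ 2 + w * (w + C 14 * z) := by ring
    rw [this]
    exact IsCoprime.add_mul_left_left h.pow_left _
  have hQw : IsCoprime w (z - w) := by
    have : z - w = z + w * (-1) := by ring
    rw [this]
    exact IsCoprime.add_mul_left_right h.symm _
  have hQ : IsCoprime (z ^ 2 + C 14 * (z * w) + w ^ 2) (z - w) := by
    have : z ^ 2 + C 14 * (z * w) + w ^ 2 = C 16 * w ^ 2 + (z - w) * (z + C 15 * w) := by
      have e1 : (C 14 : ℂ[X]) = 14 := map_ofNat C 14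
      have e2 : (C 16 : ℂ[X]) = 16 := map_ofNat C 16
      have e3 : (C 15 : ℂ[X]) = 15 := map_ofNat C 15
      rw [e1, e2, e3]
      ring
    rw [this]
    refine IsCoprime.add_mul_left_left (IsCoprime.mul_left ?_ hQw.pow_left) _
    exact isCoprime_one_left.of_isCoprime_of_dvd_left
      (isUnit_C.mpr (by norm_num : (16 : ℂ) ≠ 0).isUnit).dvd
  exact hz.mul_right (hw.mul_right hQ)

/-- the forms -/
noncomputable def octA (i : Fin 3) : ℂ[X] :=
  ![(C 2 * X) ^ 12 - C 33 * ((C 2 * X) ^ 8 * (X + C 1) ^ 4 + (C 2 * X) ^ 4 * (X + C 1) ^ 8) +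
      (X + C 1) ^ 12,
    (C 2 * X) ^ 8 + C 14 * ((C 2 * X) ^ 4 * (X + C 1) ^ 4) + (X + C 1) ^ 8,
    (C 2 * X) * (X + C 1) * ((C 2 * X) ^ 4 - (X + C 1) ^ 4)] i

theorem oct_rel (x y : ℂ[X]) :
    (x ^ 12 - C 33 * (x ^ 8 * y ^ 4 + x ^ 4 * y ^ 8) + y ^ 12) ^ 2 -
    (x ^ 8 + C 14 * (x ^ 4 * y ^ 4) + y ^ 8) ^ 3 +
    C 108 * (x * y * (x ^ 4 - y ^ 4)) ^ 4 = 0 := by
  have e1 : (C 33 : ℂ[X]) = 33 := map_ofNat C 33
  have e2 : (C 14 : ℂ[X]) = 14 := map_ofNat C 14
  have e3 : (C 108 : ℂ[X]) = 108 := map_ofNat C 108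
  rw [e1, e2, e3]
  ring

theorem stmt_KOCT : Stmt_KOCT := by
  refine kl_of ![2, 3, 4] 24 ![12, 8, 6] ![1, -1, 108] octA ?_ ?_ ?_ ?_ ?_ ?_ ?_ ?_
  · intro i; fin_cases i <;> norm_num
  · intro i; fin_cases i <;> norm_num
  · rw [Fin.sum_univ_three]; rfl
  · intro i; fin_cases i <;> norm_num
  · intro i; fin_cases i <;> norm_num
  · intro i
    fin_cases i
    · show (octA 0).natDegree = 12
      unfold octA
      simp only [Matrix.cons_val_zero]
      compute_degree!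
    · show (octA 1).natDegree = 8
      unfold octA
      simp only [Matrix.cons_val]
      compute_degree!
    · show (octA 2).natDegree = 6
      unfold octA
      simp only [Matrix.cons_val]
      compute_degree!
  · have h1 : IsCoprime ((C 2 * X : ℂ[X]) ^ 4) ((X + C 1) ^ 4) := cop_xy.pow
    have h2 := koct_cop _ _ h1
    have e1 : octA 1 = ((C 2 * X) ^ 4) ^ 2 + C 14 * ((C 2 * X) ^ 4 * (X + C 1) ^ 4) +
        ((X + C 1) ^ 4) ^ 2 := by
      simp only [octA, Matrix.cons_val_one, ← pow_mul]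
      norm_num
    have e2 : octA 2 = (C 2 * X) * ((X + C 1) * ((C 2 * X) ^ 4 - (X + C 1) ^ 4)) := by
      simp only [octA, Matrix.cons_val, mul_assoc]
    rw [← e1] at h2
    refine h2.of_isCoprime_of_dvd_right ?_
    rw [e2]
    exact mul_dvd_mul (dvd_pow_self _ (by norm_num))
      (mul_dvd_mul (dvd_pow_self _ (by norm_num)) dvd_rfl)
  · rw [Fin.sum_univ_three]
    have := oct_rel (C 2 * X) (X + C 1)
    show C (1 : ℂ) * octA 0 ^ 2 + C (-1 : ℂ) * octA 1 ^ 3 + C (108 : ℂ) * octA 2 ^ 4 = 0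
    rw [C_1, one_mul, map_neg, C_1, neg_mul, one_mul, ← sub_eq_add_neg]
    exact this

end Pool.C1.helper37
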