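import Pool.Agent.Work.MP_dcf6a6_c1_helper37.KCOM

open Polynomial

namespace Pool.C1.helper37

/-- the forms -/
noncomputable def tetA (s : ℂ) (i : Fin 3) : ℂ[X] :=
  ![(C 2 * X) * (X + C 1) * ((C 2 * X) ^ 4 - (X + C 1) ^ 4),
    (C 2 * X) ^ 4 + C s * ((C 2 * X) ^ 2 * (X + C 1) ^ 2) + (X + C 1) ^ 4,
    (C 2 * X) ^ 4 - C s * ((C 2 * X) ^ 2 * (X + C 1) ^ 2) + (X + C 1) ^ 4] i

theorem ktet_cop (s : ℂ) (hs : s ≠ 0) (z w : ℂ[X]) (h : IsCoprime z w) :
    IsCoprime (z ^ 2 + C s * (z * w) + w ^ 2) (z ^ 2 - C s * (z * w) + w ^ 2) := by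
  have hz : IsCoprime (z ^ 2 + C s * (z * w) + w ^ 2) z := by
    have : z ^ 2 + C s * (z * w) + w ^ 2 = w ^ 2 + z * (z + C s * w) := by ring
    rw [this]
    exact IsCoprime.add_mul_left_left h.symm.pow_left _
  have hw : IsCoprime (z ^ 2 + C s * (z * w) + w ^ 2) w := by
    have : z ^ 2 + C s * (z * w) + w ^ 2 = z ^ 2 + w * (w + C s * z) := by ring
    rw [this]
    exact IsCoprime.add_mul_left_left h.pow_left _
  have : z ^ 2 - C s * (z * w) + w ^ 2 = C (-2 * s) * (z * w) +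
      (z ^ 2 + C s * (z * w) + w ^ 2) * 1 := by
    have e1 : (C (-2 * s) : ℂ[X]) = -(C s + C s) := by
      rw [← C_add, ← C_neg]
      congr 1
      ring
    rw [e1]
    ring
  rw [this]
  refine IsCoprime.add_mul_left_right (IsCoprime.mul_right ?_ (hz.mul_right hw)) _
  exact isCoprime_one_right.of_isCoprime_of_dvd_right
    (isUnit_C.mpr (mul_ne_zero (by norm_num : (-2 : ℂ) ≠ 0) hs).isUnit).dvd

theorem tet_rel (s x y : ℂ[X]) (hs : s ^ 2 = -12) :
    -(6 * s) * (x * y * (x ^ 4 - y ^ 4)) ^ 2 +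
    (x ^ 4 + s * (x ^ 2 * y ^ 2) + y ^ 4) ^ 3 -
    (x ^ 4 - s * (x ^ 2 * y ^ 2) + y ^ 4) ^ 3 = 0 := by
  linear_combination 2 * s * x ^ 6 * y ^ 6 * hs

theorem stmt_KTET : Stmt_KTET := by
  obtain ⟨s, hs⟩ := IsAlgClosed.exists_pow_nat_eq (-12 : ℂ) (n := 2) (by norm_num)
  have hs0 : s ≠ 0 := by
    rintro rfl
    norm_num at hs
  have h4 : ∀ t : ℂ, t ^ 2 = -12 → 17 + 4 * t ≠ 0 := by
    intro t ht h
    have h1 : t = -17 / 4 := by linear_combination h / 4
    rw [h1] at ht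
    norm_num at ht
  refine kl_of ![2, 3, 3] 12 ![6, 4, 4] ![-(6 * s), 1, -1] (tetA s) ?_ ?_ ?_ ?_ ?_ ?_ ?_ ?_
  · intro i; fin_cases i <;> norm_num
  · intro i; fin_cases i <;> norm_num
  · rw [Fin.sum_univ_three]; rfl
  · intro i
    fin_cases i
    · show -(6 * s) ≠ 0
      exact neg_ne_zero.mpr (mul_ne_zero (by norm_num) hs0)
    · show (1 : ℂ) ≠ 0
      norm_num
    · show (-1 : ℂ) ≠ 0
      norm_num
  · intro i; fin_cases i <;> norm_num
  · intro i
    fin_cases i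
    · show (tetA s 0).natDegree = 6
      unfold tetA
      simp only [Matrix.cons_val_zero]
      compute_degree!
    · show (tetA s 1).natDegree = 4
      unfold tetA
      simp only [Matrix.cons_val]
      compute_degree!
      intro h
      apply h4 s hs
      linear_combination h
    · show (tetA s 2).natDegree = 4
      unfold tetA
      simp only [Matrix.cons_val]
      compute_degree!
      intro h
      apply h4 (-s) (by rw [neg_sq]; exact hs)
      linear_combination h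
  · have h1 : IsCoprime ((C 2 * X : ℂ[X]) ^ 2) ((X + C 1) ^ 2) := cop_xy.pow
    have h2 := ktet_cop s hs0 _ _ h1
    simp only [← pow_mul] at h2
    exact h2
  · rw [Fin.sum_univ_three]
    have hsC : (C s : ℂ[X]) ^ 2 = -12 := by
      rw [← C_pow, hs, map_neg]
      congr 1
    have := tet_rel (C s) (C 2 * X) (X + C 1) hsC
    show C (-(6 * s)) * tetA s 0 ^ 2 + C (1 : ℂ) * tetA s 1 ^ 3 + C (-1 : ℂ) * tetA s 2 ^ 3 = 0
    rw [C_1, one_mul, map_neg, map_neg, C_1, neg_mul 1, one_mul, ← sub_eq_add_neg, C_mul,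
      map_ofNat C 6]
    exact this

end Pool.C1.helper37
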